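import Pool.Agent.H343Y.E4
import Pool.Agent.H343Y.Z

/-!
# The `p`-adic size of the determinant at points with `p` in the denominator

For `n/20 < p < 15n/2` the bound E4 persists when the `p`-adic norm of `q u i` is at most `p ^ (i + 6)`.
-/

open Polynomial Pool.Agent.H337R2 Pool.Agent.H343Y Filter Topology

namespace Pool.Agent.Q203.YS

noncomputable section

set_option autoImplicit false

theorem C2_weak {n p : ℕ} [Fact p.Prime] (hn : 1 ≤ n) (hp2 : 16 * n < p ^ 2) (q : ℕ) (u : ℕ → ℚ)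
    (hu : ∀ i, padicNorm p ((q : ℚ) * u i) ≤ (p : ℚ) ^ (i + 6)) (E : ℚ[X]) (W : ℚ) (hW : 0 ≤ W) (A : ℕ → ℚ)
    (hA : ∀ k, 0 ≤ A k)
    (hE : ∀ k ∈ Finset.Icc (3 * n) (13 * n), PB p (p : ℚ) (A k) (TS (-(k : ℚ)) E))
    (h : ∀ k ∈ Finset.Icc (3 * n) (13 * n), (p : ℚ) ^ (6 - eeN p n k) * A k ≤ W) :
    padicNorm p ((q : ℚ) * xf n u (PPn n * E)) ≤ W := by
  have hp0 : (p : ℚ) ≠ 0 := p_pos'.ne'
  have key : ∀ i, 1 ≤ i → ∀ k ∈ sN n,
      padicNorm p (pa (sN n) (muN n) (PPn n * E) k i) * (p : ℚ) ^ (i + 6) ≤ W := by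
    intro i hi k hk
    by_cases hm : muN n k = 0
    · rw [pa_zero_of_mu hi hm]
      simp [hW]
    have hkI := C2_mem_Icc hm
    have hpa := C1_pa_mul hn hp2 E hk (A k) (hA k) (hE k hkI) i
    have e3 : -(eeN p n k) - (i : ℤ) + ((i + 6 : ℕ) : ℤ) = 6 - eeN p n k := by
      generalize eeN p n k = z
      push_cast
      ring
    refine (mul_le_mul_of_nonneg_right hpa (by positivity)).trans (le_trans (le_of_eq ?_) (h k hkI))
    rw [← zpow_natCast (p : ℚ) (i + 6), mul_right_comm, ← zpow_add₀ hp0, e3]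
  have hq1 : padicNorm p (q : ℚ) ≤ 1 := padicNorm.of_nat q
  unfold xf
  rw [Finset.mul_sum]
  apply padicNorm.sum_le' _ hW
  intro i hi
  rw [Finset.mem_Icc] at hi
  have hch : padicNorm p (((Nat.choose (i + 5) 6 : ℕ) : ℚ)) ≤ 1 := padicNorm.of_nat _
  have e : (q : ℚ) * (((Nat.choose (i + 5) 6 : ℕ) : ℚ) *
      ((∑ k ∈ sN n, pa (sN n) (muN n) (PPn n * E) k i) * u i -
        ∑ k ∈ sN n, pa (sN n) (muN n) (PPn n * E) k i * hs (i + 6) (k - 2 * n - 1))) =
      ((Nat.choose (i + 5) 6 : ℕ) : ℚ) *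
      ((∑ k ∈ sN n, pa (sN n) (muN n) (PPn n * E) k i * ((q : ℚ) * u i)) -
        ∑ k ∈ sN n, (q : ℚ) * (pa (sN n) (muN n) (PPn n * E) k i * hs (i + 6) (k - 2 * n - 1))) := by
    rw [← Finset.sum_mul, ← Finset.mul_sum]
    ring
  rw [e, padicNorm.mul]
  have e2 : padicNorm p ((∑ k ∈ sN n, pa (sN n) (muN n) (PPn n * E) k i * ((q : ℚ) * u i)) -
        ∑ k ∈ sN n, (q : ℚ) * (pa (sN n) (muN n) (PPn n * E) k i * hs (i + 6) (k - 2 * n - 1))) ≤ W := by
    refine padicNorm.sub.trans (max_le ?_ ?_)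
    · apply padicNorm.sum_le' _ hW
      intro k hk
      rw [padicNorm.mul]
      exact (mul_le_mul_of_nonneg_left (hu i) (padicNorm.nonneg _)).trans (key i hi.1 k hk)
    · apply padicNorm.sum_le' _ hW
      intro k hk
      rw [padicNorm.mul, padicNorm.mul]
      have hhs : padicNorm p (hs (i + 6) (k - 2 * n - 1)) ≤ (p : ℚ) ^ (i + 6) := by
        apply hs_norm_med
        rw [sN, ss, Finset.mem_Icc] at hk
        omega
      calc _ ≤ 1 * W := mul_le_mul hq1 ((mul_le_mul_of_nonneg_left hhs (padicNorm.nonneg _)).trans (key i hi.1 k hk))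
            (mul_nonneg (padicNorm.nonneg _) (padicNorm.nonneg _)) zero_le_one
        _ = W := one_mul W
  calc _ ≤ 1 * W := mul_le_mul hch e2 (padicNorm.nonneg _) zero_le_one
    _ = W := one_mul W

theorem D3_weak {n p : ℕ} [Fact p.Prime] (hn : 1 ≤ n) (hp2 : 16 * n < p ^ 2) (q : ℕ) (u : ℕ → ℚ)
    (hu : ∀ i, padicNorm p ((q : ℚ) * u i) ≤ (p : ℚ) ^ (i + 6)) (m : ℕ) (μ : ℤ) (S : Finset ℕ)
    (h : ∀ k ∈ Finset.Icc (3 * n) (13 * n), kap n p k ∈ S) :
    padicNorm p ((q : ℚ) ^ m * DET n u m) ≤ (p : ℚ) ^ (m * μ + ∑ κ ∈ S, Pool.Agent.H336R2.HD.TT (6 - eeN p n κ - μ)) := by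
  have hpp : p.Prime := Fact.out
  have hp0 : (0 : ℚ) < p := by exact_mod_cast hpp.pos
  have hp1 : (1 : ℚ) ≤ p := by exact_mod_cast hpp.one_le
  have hgreedy : ∃ (κ : ℕ → ℕ) (s : ℕ → ℤ), (∀ i, μ ≤ s i) ∧
      (∑ i ∈ Finset.range m, s i ≤ m * μ + ∑ k ∈ S, Pool.Agent.H336R2.HD.TT (6 - eeN p n k - μ)) ∧
      ∀ k ∈ S, ∀ i, 6 - eeN p n k - 2 * (((Finset.range i).filter fun l => κ l = k).card : ℤ) ≤ s i := by
    rcases S.eq_empty_or_nonempty with hS0 | hS0
    · refine ⟨fun _ => 0, fun _ => μ, fun _ => le_rfl, ?_, ?_⟩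
      · rw [hS0, Finset.sum_empty, add_zero, Finset.sum_const, Finset.card_range, nsmul_eq_mul]
      · intro k hk
        rw [hS0] at hk
        exact absurd hk (Finset.notMem_empty k)
    · obtain ⟨κ, s, -, h2, h3, h4⟩ := H336R2.HD.D1_greedy S hS0 (fun k => 6 - eeN p n k) μ m
      exact ⟨κ, s, h2, h3, h4⟩
  obtain ⟨κ, s, hs1, hs2, hs3⟩ := hgreedy
  have hmat : padicNorm p (Matrix.of fun i j : Fin m =>
      (q : ℚ) * NL n u (D3_ND n κ i * D3_ND n κ j)).det ≤ ∏ i ∈ Finset.range m, (p : ℚ) ^ (s i) := by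
    refine H336R2.HD.A3_padic_det p m _ (fun i => (p : ℚ) ^ (s i)) (fun i => by positivity) fun i j => ?_
    rw [Matrix.of_apply, NL_apply]
    have hW : padicNorm p ((q : ℚ) * xf n u (PPn n * EE n (D3_ND n κ i * D3_ND n κ j))) ≤
        (p : ℚ) ^ ((s i + s j) / 2) := by
      refine C2_weak hn hp2 q u hu _ ((p : ℚ) ^ ((s i + s j) / 2)) (by positivity)
        (fun k => (p : ℚ)⁻¹ ^ ((Finset.range i.1).filter fun l => κ l = kap n p k).card *
          (p : ℚ)⁻¹ ^ ((Finset.range j.1).filter fun l => κ l = kap n p k).card)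
        (fun k => by positivity) ?_ ?_
      · intro k hk
        have hk18 : k ≤ 16 * n := by
          have := (Finset.mem_Icc.1 hk).2
          omega
        rw [D3_EE, map_mul, map_pow, map_mul]
        have h1 := PB.pow hp0.le zero_le_one (D3_xp p (p : ℚ) hp1 n k) 74
        have h2 := PB.mul hp0.le (by positivity) (by positivity) (D3_ND_PB p n k hk18 κ i)
          (D3_ND_PB p n k hk18 κ j)
        have h3 := PB.mul hp0.le (by positivity) (by positivity) h1 h2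
        simpa using h3
      · intro k hk
        have hk18 : k ≤ 16 * n := by
          have := (Finset.mem_Icc.1 hk).2
          omega
        have h1 := h k hk
        have h2 := hs3 _ h1 i
        have h3 := hs3 _ h1 j
        rw [D2_ee_kap hn hpp.pos hk18] at h2 h3
        set a := ((Finset.range i.1).filter fun l => κ l = kap n p k).card
        set b := ((Finset.range j.1).filter fun l => κ l = kap n p k).card
        have e : (p : ℚ) ^ (6 - eeN p n k) * ((p : ℚ)⁻¹ ^ a * (p : ℚ)⁻¹ ^ b) =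
            (p : ℚ) ^ (6 - eeN p n k - a - b : ℤ) := by
          generalize 6 - eeN p n k = z
          rw [zpow_sub₀ hp0.ne', zpow_sub₀ hp0.ne', zpow_natCast, zpow_natCast,
            inv_pow, inv_pow, div_eq_mul_inv, div_eq_mul_inv, mul_assoc]
        rw [e]
        refine zpow_le_zpow_right₀ hp1 ?_
        omega
    calc padicNorm p ((q : ℚ) * xf n u (PPn n * EE n (D3_ND n κ i * D3_ND n κ j))) ^ 2
        ≤ ((p : ℚ) ^ ((s i + s j) / 2)) ^ 2 := pow_le_pow_left₀ (padicNorm.nonneg _) hW 2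
      _ = (p : ℚ) ^ ((s i + s j) / 2 * 2) := by
          rw [← zpow_natCast, ← zpow_mul]
          rfl
      _ ≤ (p : ℚ) ^ (s i + s j) := zpow_le_zpow_right₀ hp1 (by omega)
      _ = (p : ℚ) ^ (s i) * (p : ℚ) ^ (s j) := zpow_add₀ hp0.ne' _ _
  have hdet : (Matrix.of fun i j : Fin m =>
      (q : ℚ) * NL n u (D3_ND n κ i * D3_ND n κ j)).det = (q : ℚ) ^ m * DET n u m := by
    have h1 : (Matrix.of fun i j : Fin m => (q : ℚ) * NL n u (D3_ND n κ i * D3_ND n κ j)) =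
        (q : ℚ) • (Matrix.of fun i j : Fin m => NL n u (D3_ND n κ i * D3_ND n κ j)) := by
      ext i j
      simp
    rw [h1, Matrix.det_smul, Fintype.card_fin,
      H336R2.HD.A1_det_monic (NL n u) m (D3_ND n κ) (fun i _ => D3_ND_monic n κ i)]
    rfl
  rw [← hdet]
  refine le_trans hmat ?_
  have hprod : ∏ i ∈ Finset.range m, (p : ℚ) ^ (s i) = (p : ℚ) ^ (∑ i ∈ Finset.range m, s i) := by
    clear hmat hdet hs2
    induction m with
    | zero => simp
    | succ m ih => rw [Finset.prod_range_succ, Finset.sum_range_succ, zpow_add₀ hp0.ne', ih]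
  rw [hprod]
  exact zpow_le_zpow_right₀ hp1 hs2

/-- the `p`-adic size of the determinant at points with `p` in the denominator -/
theorem E4_weak : ∃ K0 : ℝ, 0 ≤ K0 ∧ ∀ n : ℕ, 7 ≤ n → ∀ p : ℕ, p.Prime → n < 20 * p → 2 * p < 15 * n →
    16 * n < p ^ 2 → ∀ (q : ℕ) (u : ℕ → ℚ), (∀ i, padicNorm p ((q : ℚ) * u i) ≤ (p : ℚ) ^ (i + 6)) →
    ((padicNorm p ((q : ℚ) ^ (33 * (n - 1)) * DET n u (33 * (n - 1))) : ℚ) : ℝ) ≤ (p : ℝ) ^ (EW n p + K0) := by
  obtain ⟨KA, hKA⟩ := E3_A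
  obtain ⟨KB, hKB⟩ := E3_B
  refine ⟨max (max KA KB) 0, le_max_right _ _, ?_⟩
  intro n hn p hp hnp h5 hp2 q u hu
  have : Fact p.Prime := ⟨hp⟩
  have hp1 : 1 ≤ p := hp.one_lt.le
  set μ : ℤ := 7 - (16 * ((10 * n / p : ℕ) : ℤ) - 14 * ((2 * n / p : ℕ) : ℤ)) with hμ
  have h3 := D3_weak (n := n) (p := p) (by omega) hp2 q u hu (33 * (n - 1)) μ (Kset n p)
    (fun k hk => D2_kap_mem hp.pos (by rw [Finset.mem_Icc] at hk; omega))
  refine to_rpow hp1 h3 ?_
  by_cases h2 : p < 2 * n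
  · have h4 := hKA n p hp hn hnp h2 hp2 μ hμ
    refine h4.trans ?_
    rw [EW, if_pos h2]
    have : KA ≤ max (max KA KB) 0 := (le_max_left KA KB).trans (le_max_left _ _)
    linarith
  · have h4 := hKB n p hp hn (by omega) h5 hp2 μ hμ
    refine h4.trans ?_
    rw [EW, if_neg h2, if_pos h5]
    have : KB ≤ max (max KA KB) 0 := (le_max_right KA KB).trans (le_max_left _ _)
    linarith

end

end Pool.Agent.Q203.YS
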