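import Pool.Agent.Q203.YS.Arch
import Pool.Agent.Q203.YS.PAd
import Pool.Agent.TH900.YM.Meas

/-!
# The main inequality at rational points close to `ζ(9), ζ(11), …, ζ(21)`

The part of the denominator made of ninth powers of primes `p`, `n < p < 15n/2`, costs nothing.
-/

open Polynomial Pool.Agent.H337R2 Pool.Agent.H343Y Filter Topology Pool.Agent.TH900.YM

namespace Pool.Agent.Q203.YS

noncomputable section

set_option autoImplicit false

lemma three_le {i : ℕ} (hi : i ∈ I7) : 3 ≤ i := by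
  simp only [I7, Finset.mem_insert, Finset.mem_singleton] at hi
  omega

/-- the norm of a product of powers of other primes -/
lemma norm_prod_pow (p : ℕ) [hp : Fact p.Prime] (B : Finset ℕ) (hB : ∀ r ∈ B, r.Prime) (hpB : p ∉ B) :
    padicNorm p ((∏ r ∈ B, r ^ 9 : ℕ) : ℚ) = 1 := by
  rw [padicNorm.nat_eq_one_iff]
  intro h
  obtain ⟨r, hr, hd⟩ := (Prime.dvd_finsetProd_iff hp.out.prime _).1 h
  have h1 := hp.out.dvd_of_dvd_pow hd
  have h2 := (Nat.prime_dvd_prime_iff_eq hp.out (hB r hr)).1 h1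
  exact hpB (h2 ▸ hr)

/-- no rational point with a small reduced denominator is very close to the zeta values -/
theorem key' : ∃ n0 : ℕ, ∀ n : ℕ, n0 ≤ n → n.Prime → n % 24 = 1 → ∀ (q q' : ℕ) (B : Finset ℕ) (u : ℕ → ℚ),
    Pool.Agent.H336R2.HD.UInt q u → (∀ i, ¬ (i ∈ I7) → u i = 0) → ¬ n ^ 9 ∣ q →
    (∀ p ∈ B, p.Prime ∧ n < p ∧ 2 * p < 15 * n) → q = q' * ∏ p ∈ B, p ^ 9 →
    33 * Real.log q' ≤ 999 / 10 * n → ∃ l, l ∈ I7 ∧
      Real.exp (-(32380 / 100 * n)) < |zr (l + 6) - (u l : ℝ)| := by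
  obtain ⟨K1, hK1, hE4⟩ := E4_padic
  obtain ⟨K2, hK2, hE4w⟩ := E4_weak
  set K0 : ℝ := max K1 K2 with hK0d
  have hK0 : 0 ≤ K0 := hK1.trans (le_max_left _ _)
  obtain ⟨p0, hH6⟩ := nonvanish
  have hF3 : ((LA + LB + LC + LU : ℚ) : ℝ) ≤ 4844 := by
    have h := (Rat.cast_le (K := ℝ)).2 F3_numeric
    refine h.trans (le_of_eq ?_)
    norm_num
  have hnum := M_num hF3
  -- the eventual inequalities
  have hε : (0 : ℝ) < 1 / 100 := by norm_num
  have ev1 := arch_pert' (1 / 100) hε
  have ev2 := ev_of_tendsto F2_A (1 / 100) hε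
  have ev3 := ev_of_tendsto F2_B (1 / 100) hε
  have ev4 := ev_of_tendsto F2_C (1 / 100) hε
  have ev5 := ev_of_tendsto F2_U (1 / 100) hε
  have ev6 := F4_small (1 / 100) hε
  have ev7 := F5_fact
  have ev8 := F6_superfac (1 / 100) hε
  have ev9 : ∀ᶠ n : ℕ in atTop, K0 * (Real.log 4 * 11) ≤ 1 / 100 * n := by
    have := (tendsto_natCast_atTop_atTop (R := ℝ)).const_mul_atTop hε
    exact this.eventually_ge_atTop _
  obtain ⟨N1, hN1⟩ := eventually_atTop.1 ev1
  obtain ⟨N2, hN2⟩ := eventually_atTop.1 (ev2.and (ev3.and (ev4.and (ev5.and (ev6.and (ev7.and (ev8.and ev9)))))))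
  refine ⟨24 * N1 + N2 + p0 + 7200, fun n hngt hnp hnmod q q' B u hu hu0 hnq hB hqq hlogq => ?_⟩
  by_contra hcon
  push Not at hcon
  have hq0 : 0 < q := hu.1
  have hq'0 : 0 < q' := by
    rcases Nat.eq_zero_or_pos q' with h | h
    · rw [h, zero_mul] at hqq; omega
    · exact h
  obtain ⟨N, hN⟩ : ∃ N, n = 24 * N + 1 := ⟨n / 24, by omega⟩
  have hn7 : 7 ≤ n := by omega
  -- the size of the coordinates
  have hqu : ∀ p : ℕ, p.Prime → ∀ i, padicNorm p ((q : ℚ) * u i) ≤ 1 := by
    intro p hp i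
    have : Fact p.Prime := ⟨hp⟩
    obtain ⟨z, hz⟩ := hu.2 i
    rw [hz]
    exact padicNorm.of_int z
  have hun : ∀ i, padicNorm n (u i) ≤ (n : ℚ) ^ (i + 5) := by
    have : Fact n.Prime := ⟨hnp⟩
    have hn1 : (1 : ℚ) ≤ n := by exact_mod_cast hnp.one_lt.le
    have hn0 : (0 : ℚ) < n := by linarith
    intro i
    by_cases hi : i ∈ I7
    · have h1 := hqu n hnp i
      rw [padicNorm.mul] at h1
      have h2 : (n : ℚ) ^ (-(8 : ℤ)) ≤ padicNorm n (q : ℚ) := by
        by_contra hlt
        push Not at hlt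
        have h3 : padicNorm n ((q : ℤ) : ℚ) ≤ (n : ℚ) ^ (-(9 : ℤ)) := by
          have h4 : padicNorm n ((q : ℤ) : ℚ) = padicNorm n (q : ℚ) := by push_cast; rfl
          rw [h4, padicNorm.eq_zpow_of_nonzero (by exact_mod_cast hq0.ne')]
          rw [padicNorm.eq_zpow_of_nonzero (by exact_mod_cast hq0.ne')] at hlt
          have h5 := (zpow_lt_zpow_iff_right₀ (by exact_mod_cast hnp.one_lt : (1 : ℚ) < n)).1 hlt
          exact zpow_le_zpow_right₀ hn1 (by omega)
        have h6 := (padicNorm.dvd_iff_norm_le (p := n) (n := 9) (z := q)).2 (by exact_mod_cast h3)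
        apply hnq
        exact_mod_cast h6
      have h7 : padicNorm n (u i) ≤ (n : ℚ) ^ (8 : ℤ) := by
        have h8 : (n : ℚ) ^ (-(8 : ℤ)) * padicNorm n (u i) ≤ 1 :=
          (mul_le_mul_of_nonneg_right h2 (padicNorm.nonneg _)).trans h1
        rw [zpow_neg, inv_mul_le_iff₀ (by positivity), mul_one] at h8
        exact h8
      refine h7.trans ?_
      rw [← zpow_natCast]
      apply zpow_le_zpow_right₀ hn1
      have hi3 := three_le hi
      push_cast
      omega
    · rw [hu0 i hi, padicNorm.zero]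
      positivity
  have hDne : DET n u (33 * (n - 1)) ≠ 0 := hH6 n (by omega) hnp u hun
  have g1 := hN1 N (by omega) n hN u hcon hDne
  obtain ⟨g2, g3, g4, g5, g6, g7, g8, g9⟩ := hN2 n (by omega)
  have hn0 : (0 : ℝ) < n := by exact_mod_cast (by omega : 0 < n)
  set D := DET n u (33 * (n - 1)) with hD
  set z : ℚ := (q' : ℚ) ^ (33 * (n - 1)) * D with hz
  have hqr : (0 : ℝ) < q' := by exact_mod_cast hq'0
  have hz0 : z ≠ 0 := mul_ne_zero (by positivity) hDne
  -- primes outside `B`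
  have hout : ∀ p : ℕ, p.Prime → p ∉ B → padicNorm p z = padicNorm p ((q : ℚ) ^ (33 * (n - 1)) * D) := by
    intro p hp hpB
    have : Fact p.Prime := ⟨hp⟩
    have h1 := norm_prod_pow p B (fun r hr => (hB r hr).1) hpB
    have h2 : (q : ℚ) ^ (33 * (n - 1)) * D = (((∏ r ∈ B, r ^ 9 : ℕ) : ℚ)) ^ (33 * (n - 1)) * z := by
      rw [hz, hqq, Nat.cast_mul, mul_pow]
      ring
    rw [h2, padicNorm.mul _ z]
    have h3 : padicNorm p ((((∏ r ∈ B, r ^ 9 : ℕ) : ℚ)) ^ (33 * (n - 1))) = 1 := by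
      rw [padicNorm_pow', h1, one_pow]
    rw [h3, one_mul]
  have hE4' : ∀ p : ℕ, p.Prime → n < 20 * p → 16 * n < p ^ 2 →
      ((padicNorm p ((q : ℚ) ^ (33 * (n - 1)) * DET n u (33 * (n - 1))) : ℚ) : ℝ) ≤
      if p < 11 * n then (p : ℝ) ^ (EW n p + K0) else 1 := by
    intro p hp h1 h2
    refine (hE4 n hn7 p hp h1 h2 q u hu).trans ?_
    split_ifs
    · apply Real.rpow_le_rpow_of_exponent_le (by exact_mod_cast hp.one_lt.le)
      have := le_max_left K1 K2
      linarith
    · exact le_rfl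
  set S := (Finset.range (11 * n)).filter Nat.Prime with hS
  have hpf := Pool.Agent.H336R2.HD.A5_prod_formula z hz0 S (fun p hp => (Finset.mem_filter.1 hp).2) (fun p => Bf n p K0)
    (fun p hp => by
      rw [hS, Finset.mem_filter, Finset.mem_range] at hp
      by_cases hpB : p ∈ B
      · have : Fact p.Prime := ⟨hp.2⟩
        obtain ⟨_, hb1, hb2⟩ := hB p hpB
        have hp0 : (p : ℚ) ≠ 0 := by exact_mod_cast hp.2.ne_zero
        have hp1 : (1 : ℚ) ≤ p := by exact_mod_cast hp.2.one_lt.le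
        have h1 : ∀ i, padicNorm p ((q' : ℚ) * u i) ≤ (p : ℚ) ^ (i + 6) := by
          intro i
          by_cases hi : i ∈ I7
          · have h2 := hqu p hp.2 i
            have h3 : (q : ℚ) * u i = ((∏ r ∈ B.erase p, r ^ 9 : ℕ) : ℚ) * ((p : ℚ) ^ 9 * ((q' : ℚ) * u i)) := by
              rw [hqq, ← Finset.mul_prod_erase B (fun r => r ^ 9) hpB]
              push_cast
              ring
            rw [h3, padicNorm.mul, norm_prod_pow p (B.erase p) (fun r hr => (hB r (Finset.mem_of_mem_erase hr)).1)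
              (Finset.notMem_erase p B), one_mul, padicNorm.mul, padicNorm_pow', padicNorm.padicNorm_p_of_prime,
              inv_pow, inv_mul_le_iff₀ (by positivity), mul_one] at h2
            refine h2.trans ?_
            have hi3 := three_le hi
            exact pow_le_pow_right₀ hp1 (by omega)
          · rw [hu0 i hi, mul_zero, padicNorm.zero]
            positivity
        have h4 := hE4w n hn7 p hp.2 (by omega) hb2 (by nlinarith) q' u h1
        have h5 : Bf n p K0 = (p : ℝ) ^ (EW n p + K0) := by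
          unfold Bf
          rw [if_neg (by omega)]
        rw [h5]
        refine le_trans h4 ?_
        apply Real.rpow_le_rpow_of_exponent_le (by exact_mod_cast hp.2.one_lt.le)
        have := le_max_right K1 K2
        linarith
      · rw [hout p hp.2 hpB]
        exact norm_le_Bf n p K0 hn7 hp.2 q u hu (fun h1 h2 => hE4' p hp.2 h1 h2) (by omega) hp.1)
    (fun p hp hpS => by
      rw [hS, Finset.mem_filter, Finset.mem_range] at hpS
      have h1 : 11 * n ≤ p := by
        by_contra h; exact hpS ⟨by omega, hp⟩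
      have hpB : p ∉ B := by
        intro h
        have := (hB p h).2.2
        omega
      rw [hout p hp hpB]
      have h2 := hE4' p hp (by omega) (by nlinarith)
      rw [if_neg (by omega)] at h2
      have h3 : padicNorm p ((q : ℚ) ^ (33 * (n - 1)) * DET n u (33 * (n - 1))) ≤ 1 := by
        exact_mod_cast h2
      exact h3)
  have hprodpos : 0 < ∏ p ∈ S, Bf n p K0 :=
    Finset.prod_pos fun p hp => Bf_pos n p K0 (Finset.mem_filter.1 hp).2
  have hzabs : 0 < |(z : ℝ)| := abs_pos.2 (by exact_mod_cast hz0)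
  have hlog := Real.log_nonneg hpf
  rw [Real.log_mul hzabs.ne' hprodpos.ne', Real.log_prod (fun p hp => (Bf_pos n p K0 (Finset.mem_filter.1 hp).2).ne')] at hlog
  have hzlog : Real.log |(z : ℝ)| = ((33 * (n - 1) : ℕ) : ℝ) * Real.log q' + Real.log |((D : ℚ) : ℝ)| := by
    rw [hz, Rat.cast_mul, Rat.cast_pow, Rat.cast_natCast]
    rw [abs_mul, Real.log_mul (by positivity) (abs_pos.2 (by exact_mod_cast hDne)).ne', abs_of_pos (by positivity), Real.log_pow]
  have hlq : 0 ≤ Real.log q' := Real.log_nonneg (by exact_mod_cast hq'0)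
  have hmq : ((33 * (n - 1) : ℕ) : ℝ) * Real.log q' ≤ 33 * n * Real.log q' := by
    apply mul_le_mul_of_nonneg_right _ hlq
    have : 33 * (n - 1) ≤ 33 * n := by omega
    exact_mod_cast this
  -- split of the sum
  rw [← Finset.sum_filter_add_sum_filter_not S (fun p => 20 * p ≤ n)] at hlog
  have hsmall : ∑ p ∈ S.filter (fun p => 20 * p ≤ n), Real.log (Bf n p K0) ≤
      33 * (n : ℝ) * (∑ p ∈ (Finset.range (n + 1)).filter (fun p : ℕ => p.Prime ∧ p ^ 2 ≤ 66 * n),
        200 * Real.log (66 * n + 1) +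
      ∑ p ∈ (Finset.range (n + 1)).filter (fun p : ℕ => p.Prime ∧ 20 * p ≤ n), 22 * Real.log p) +
      ∑ p ∈ (Finset.range (n + 1)).filter (fun p : ℕ => p.Prime ∧ 20 * p ≤ n), ∑ i ∈ Finset.range (33 * (n - 1)),
      Real.log ((padicNorm p (((2 * i - 1).factorial : ℕ) : ℚ) ^ 2 : ℚ) : ℝ) := by
    have e1 : S.filter (fun p => 20 * p ≤ n) = (Finset.range (n + 1)).filter (fun p : ℕ => p.Prime ∧ 20 * p ≤ n) := by
      ext p
      rw [hS]
      simp only [Finset.mem_filter, Finset.mem_range]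
      constructor
      · rintro ⟨⟨h1, h2⟩, h3⟩; exact ⟨by omega, h2, h3⟩
      · rintro ⟨h1, h2, h3⟩; exact ⟨⟨by omega, h2⟩, h3⟩
    rw [e1]
    calc _ ≤ ∑ p ∈ (Finset.range (n + 1)).filter (fun p : ℕ => p.Prime ∧ 20 * p ≤ n),
          (33 * (n : ℝ) * ((if p ^ 2 ≤ 66 * n then 200 * Real.log (66 * n + 1) else 0) + 22 * Real.log p) +
          ∑ i ∈ Finset.range (33 * (n - 1)), Real.log ((padicNorm p (((2 * i - 1).factorial : ℕ) : ℚ) ^ 2 : ℚ) : ℝ)) := by
          apply Finset.sum_le_sum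
          intro p hp
          rw [Finset.mem_filter] at hp
          exact log_Bf_small n p K0 hn7 hp.2.1 hp.2.2
      _ ≤ _ := by
          rw [Finset.sum_add_distrib, ← Finset.mul_sum, Finset.sum_add_distrib]
          apply add_le_add_left
          apply mul_le_mul_of_nonneg_left _ (by positivity)
          apply add_le_add_left
          rw [← Finset.sum_filter]
          apply Finset.sum_le_sum_of_subset_of_nonneg
          · intro p hp
            simp only [Finset.mem_filter, Finset.mem_range] at hp ⊢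
            exact ⟨hp.1.1, hp.1.2.1, hp.2⟩
          · intro p _ _
            have : 0 ≤ Real.log (66 * (n : ℝ) + 1) := Real.log_nonneg (by linarith)
            positivity
  have hlarge : ∑ p ∈ S.filter (fun p => ¬ 20 * p ≤ n), Real.log (Bf n p K0) ≤
      ∑ p ∈ PS (1 / 20) 2 n, EA n p * Real.log p + ∑ p ∈ PS 2 (15 / 2) n, EB n p * Real.log p +
      ∑ p ∈ PS (15 / 2) 11 n, EC n p * Real.log p + K0 * (Real.log 4 * (11 * n)) := by
    refine le_trans (le_of_eq ?_) (EW_split n hn7 K0 hK0)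
    apply Finset.sum_congr rfl
    intro p hp
    rw [hS, Finset.mem_filter, Finset.mem_filter] at hp
    exact log_Bf_large n p K0 hp.1.2 hp.2
  have hfin : 33 * (n : ℝ) * Real.log q' + K0 * (Real.log 4 * (11 * n)) ≤ (999 / 10 + 1 / 100) * (n : ℝ) ^ 2 := by
    have h1 := mul_le_mul_of_nonneg_right g9 hn0.le
    have h2 := mul_le_mul_of_nonneg_right hlogq hn0.le
    nlinarith
  have hn2 : (0 : ℝ) < (n : ℝ) ^ 2 := by positivity
  push_cast at hnum
  have htot : 0 ≤ (JJ - (2178 * Real.log 66 - 3267) + 363 / 10 +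
      ((LA : ℝ) + LB + LC + LU) + (999 / 10 + 8 / 100)) * (n : ℝ) ^ 2 := by
    linarith
  have hneg : (JJ - (2178 * Real.log 66 - 3267) + 363 / 10 +
      ((LA : ℝ) + LB + LC + LU) + (999 / 10 + 8 / 100)) * (n : ℝ) ^ 2 < 0 := by
    apply mul_neg_of_neg_of_pos _ hn2
    linarith
  linarith

end

end Pool.Agent.Q203.YS
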