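import Pool.Agent.Q203.YS.Rho
import Pool.Agent.TH900.YM.Arch

/-!
# The perturbation is smaller than the bound of the entries (sharper form), for `ζ(9), …, ζ(21)`
-/

open Polynomial Pool.Agent.H337R2 Pool.Agent.H343Y Filter Topology Pool.Agent.TH900.YM Pool.Agent.Q203.SM

namespace Pool.Agent.Q203.YS

open Pool.Agent.H343Y.G4eAux

noncomputable section

set_option autoImplicit false

/-- exponents of two of the stages, times four -/
def kk1 (s : ℕ) : ℕ := [8088, 8189, 8297, 8425, 8572, 8733].getD s 0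

lemma A1_pow (s : ℕ) (hs : s < 6) : A1 s ^ 4 ≤ (2 ^ 128) ^ (kk1 s / 128) * 2 ^ (kk1 s % 128) := by
  interval_cases s <;> norm_num [A1, Mab, at1, la1, sg1, ls1, kk1, Finset.prod_range_succ]

lemma log_of_pow {x : ℝ} (hx : 0 < x) {K : ℕ} (h : x ^ 4 ≤ (2 ^ 128) ^ (K / 128) * 2 ^ (K % 128)) :
    Real.log x ≤ Real.log 2 / 4 * K := by
  have e : ((2 : ℝ) ^ 128) ^ (K / 128) * 2 ^ (K % 128) = 2 ^ K := by
    rw [← pow_mul, ← pow_add, Nat.div_add_mod]
  rw [e] at h
  have h1 := Real.log_le_log (by positivity) h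
  rw [Real.log_pow, Real.log_pow] at h1
  push_cast at h1
  linarith

lemma A1_pos (s : ℕ) (hs : s < 6) : 0 < A1 s := by
  interval_cases s <;> norm_num [A1, Mab, at1, la1, sg1, ls1, Finset.prod_range_succ]

lemma log_A1 (s : ℕ) (hs : s < 6) : Real.log ((A1 s : ℚ) : ℝ) ≤ Real.log 2 / 4 * kk1 s := by
  apply log_of_pow (by exact_mod_cast A1_pos s hs)
  exact_mod_cast A1_pow s hs

/-- three and two -/
lemma log_three : 84 * Real.log 2 ≤ 53 * Real.log 3 := by
  have h1 : Real.log ((2 : ℝ) ^ 84) ≤ Real.log ((3 : ℝ) ^ 53) := by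
    apply Real.log_le_log (by norm_num)
    norm_num
  rw [Real.log_pow, Real.log_pow] at h1
  push_cast at h1
  exact h1

lemma log_G : Real.log ((G0 * 2 ^ 160 : ℚ) : ℝ) ≤ 25087 / 100 * Real.log 2 := by
  have h0 : (G0 * 2 ^ 160 : ℚ) = (2 ^ 192) ^ 2 / 3 ^ 84 := by
    norm_num [G0]
  have h1 : ((G0 * 2 ^ 160 : ℚ) : ℝ) = (2 ^ 192) ^ 2 / 3 ^ 84 := by
    rw [h0]
    push_cast
    rfl
  rw [h1, Real.log_div (by positivity) (by positivity), Real.log_pow, Real.log_pow, Real.log_pow]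
  have h3 := log_three
  have hl2 : 0 < Real.log 2 := Real.log_pos (by norm_num)
  push_cast
  linarith

/-- the exponents of two of the bound of the basis polynomials, times four -/
def KX (N i : ℕ) : ℕ := ∑ s ∈ Finset.range 6, kk1 s * e1 N i s

lemma KX_le (N i : ℕ) : KX N i ≤ EX N i + 4452 * N := by
  unfold KX EX
  have h1 : ∀ s, e1 N i s ≤ N := fun s => min_le_left _ _
  simp only [Finset.sum_range_succ, Finset.sum_range_zero, kk1, t1, lt1, List.getD_cons_zero,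
      List.getD_cons_succ, Nat.reduceSub]
  have a0 := h1 0
  have a1 := h1 1
  have a2 := h1 2
  have a3 := h1 3
  have a4 := h1 4
  have a5 := h1 5
  omega

lemma le_exp_of_log_le {x y : ℝ} (hx : 0 < x) (h : Real.log x ≤ y) : x ≤ Real.exp y := by
  rw [← Real.exp_log hx]
  exact Real.exp_le_exp.2 h

lemma AP_le_KX (N i : ℕ) : ((AP N i : ℚ) : ℝ) ≤ 36864 ^ 132 * Real.exp (Real.log 2 / 4 * KX N i) := by
  have hl2 : 0 < Real.log 2 := Real.log_pos (by norm_num)
  unfold AP KX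
  push_cast
  rw [mul_comm]
  apply mul_le_mul_of_nonneg_left _ (by positivity)
  rw [Finset.mul_sum, Real.exp_sum]
  apply Finset.prod_le_prod
  · intro s hs
    have := A1_pos s (Finset.mem_range.1 hs)
    have h0 : (0 : ℝ) < ((A1 s : ℚ) : ℝ) := by exact_mod_cast this
    positivity
  · intro s hs
    have hs' := Finset.mem_range.1 hs
    have h0 : (0 : ℝ) < ((A1 s : ℚ) : ℝ) := by exact_mod_cast A1_pos s hs'
    have h1 := le_exp_of_log_le h0 (log_A1 s hs')
    calc ((A1 s : ℚ) : ℝ) ^ e1 N i s ≤ (Real.exp (Real.log 2 / 4 * kk1 s)) ^ e1 N i s :=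
          pow_le_pow_left₀ h0.le h1 _
      _ = _ := by
          rw [← Real.exp_nat_mul]
          congr 1
          ring

lemma AP_le (N i : ℕ) : ((AP N i : ℚ) : ℝ) ≤
    36864 ^ 132 * Real.exp (Real.log 2 / 4 * (EX N i + 4452 * N)) := by
  refine (AP_le_KX N i).trans ?_
  apply mul_le_mul_of_nonneg_left _ (by positivity)
  apply Real.exp_le_exp.2
  have hl2 : 0 < Real.log 2 := Real.log_pos (by norm_num)
  apply mul_le_mul_of_nonneg_left _ (by linarith)
  exact_mod_cast KX_le N i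

/-- the constant -/
def cR : ℝ := (16 * 18 * 426 ^ 16 * 36864 ^ 74 * (36864 ^ 132) ^ 2) * ((G0 * 2 ^ 160 : ℚ) : ℝ) * Real.exp 132

lemma cR_pos : 0 < cR := by
  have h : (0 : ℝ) < ((G0 * 2 ^ 160 : ℚ) : ℝ) := by
    have := G0_pos
    exact_mod_cast (by positivity : (0 : ℚ) < G0 * 2 ^ 160)
  unfold cR
  positivity

/-- the size of the coefficients -/
lemma rho_real' {n N : ℕ} (hN : 4000 ≤ N) (hn : n = 24 * N + 1) {i j : ℕ} (hi : i < 792 * N)
    (hj : j < 792 * N) (l : ℕ) :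
    |((rho n (PN N i * PN N j) l : ℚ) : ℝ)| ≤
      cR * (n : ℝ) ^ 166 * Real.exp (824688 / 100 * Real.log 2 * N + Real.log 2 / 4 * ((EX N i : ℝ) + EX N j) +
        2 * ((i : ℝ) + j) * Real.log N) := by
  have h1 := rho_le' hN hn hi hj l
  have hG : (0 : ℝ) < ((G0 * 2 ^ 160 : ℚ) : ℝ) := by
    have := G0_pos
    exact_mod_cast (by positivity : (0 : ℚ) < G0 * 2 ^ 160)
  set GG : ℝ := ((G0 * 2 ^ 160 : ℚ) : ℝ) with hGG
  have h2 : |((rho n (PN N i * PN N j) l : ℚ) : ℝ)| ≤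
      (16 * n) * (GG ^ n * (18 * n) * ((36864 ^ 74 * (((AP N i : ℚ) : ℝ) * ((AP N j : ℚ) : ℝ))) *
        ((nu n : ℚ) : ℝ) ^ (74 + (i + j))) * (426 * n) ^ 16) := by
    have : ((|rho n (PN N i * PN N j) l| : ℚ) : ℝ) ≤
      (((16 * n) * ((G0 * 2 ^ 160) ^ n * (18 * n) * ((36864 ^ 74 * (AP N i * AP N j)) * nu n ^ (74 + (i + j))) *
        (426 * n) ^ 16) : ℚ) : ℝ) := by
      exact_mod_cast h1
    rw [hGG]
    push_cast at this ⊢
    exact this
  refine h2.trans ?_
  have hN1 : (4000 : ℝ) ≤ N := by exact_mod_cast hN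
  have hN0 : (0 : ℝ) < N := by linarith
  have hnr : (n : ℝ) = 24 * N + 1 := by rw [hn]; push_cast; ring
  have hn0 : (0 : ℝ) < n := by rw [hnr]; linarith
  have hn1 : (1 : ℝ) ≤ n := by rw [hnr]; linarith
  have hl2 : 0 < Real.log 2 := Real.log_pos (by norm_num)
  have hAi0 : (0 : ℝ) ≤ ((AP N i : ℚ) : ℝ) := by exact_mod_cast AP_nonneg N i
  have hAj0 : (0 : ℝ) ≤ ((AP N j : ℚ) : ℝ) := by exact_mod_cast AP_nonneg N j
  -- powers of the base
  have p1 : GG ^ n ≤ GG * Real.exp (24 * (25087 / 100) * Real.log 2 * N) := by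
    have h3 : GG ≤ Real.exp (25087 / 100 * Real.log 2) := le_exp_of_log_le hG log_G
    rw [hn, pow_succ, mul_comm]
    apply mul_le_mul_of_nonneg_left _ hG.le
    calc GG ^ (24 * N) ≤ (Real.exp (25087 / 100 * Real.log 2)) ^ (24 * N) := pow_le_pow_left₀ hG.le h3 _
      _ = _ := by
          rw [← Real.exp_nat_mul]
          congr 1
          push_cast
          ring
  have hnu : ((nu n : ℚ) : ℝ) = ((N : ℝ) * (1 + 1 / (24 * N))) ^ 2 := by
    unfold nu
    push_cast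
    rw [hnr]
    field_simp
  have p2 : ((nu n : ℚ) : ℝ) ^ (i + j) ≤ Real.exp (2 * ((i : ℝ) + j) * Real.log N) * Real.exp 132 := by
    have h3 : (1 + 1 / (24 * (N : ℝ))) ≤ Real.exp (1 / (24 * N)) := by
      have := Real.add_one_le_exp (1 / (24 * (N : ℝ)))
      linarith
    have h4 : (N : ℝ) * (1 + 1 / (24 * N)) ≤ Real.exp (Real.log N + 1 / (24 * N)) := by
      rw [Real.exp_add, Real.exp_log hN0]
      exact mul_le_mul_of_nonneg_left h3 hN0.le
    rw [hnu, ← pow_mul, ← Real.exp_add]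
    calc _ ≤ (Real.exp (Real.log N + 1 / (24 * N))) ^ (2 * (i + j)) := pow_le_pow_left₀ (by positivity) h4 _
      _ = Real.exp ((2 * (i + j) : ℕ) * (Real.log N + 1 / (24 * N))) := by rw [← Real.exp_nat_mul]
      _ ≤ _ := by
          apply Real.exp_le_exp.2
          have h5 : ((2 * (i + j) : ℕ) : ℝ) ≤ 3168 * N := by
            have : 2 * (i + j) ≤ 3168 * N := by omega
            exact_mod_cast this
          have h6 : ((2 * (i + j) : ℕ) : ℝ) * (1 / (24 * N)) ≤ 132 := by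
            calc _ ≤ (3168 * (N : ℝ)) * (1 / (24 * N)) := mul_le_mul_of_nonneg_right h5 (by positivity)
              _ = 132 := by field_simp; norm_num
          push_cast at h6 ⊢
          linarith
  have p3 : ((nu n : ℚ) : ℝ) ^ 74 ≤ (n : ℝ) ^ 148 := by
    have h3 : ((nu n : ℚ) : ℝ) ≤ (n : ℝ) ^ 2 := by
      unfold nu
      push_cast
      have : ((n : ℝ) / 24) ^ 2 = (n : ℝ) ^ 2 / 576 := by ring
      rw [this]
      have : (0 : ℝ) ≤ (n : ℝ) ^ 2 := by positivity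
      linarith
    have h4 : (0 : ℝ) ≤ ((nu n : ℚ) : ℝ) := by exact_mod_cast nu_nonneg n
    calc _ ≤ ((n : ℝ) ^ 2) ^ 74 := pow_le_pow_left₀ h4 h3 74
      _ = _ := by rw [← pow_mul]
  have hnu0 : (0 : ℝ) ≤ ((nu n : ℚ) : ℝ) := by exact_mod_cast nu_nonneg n
  have pi := AP_le N i
  have pj := AP_le N j
  have e1 : (16 * (n : ℝ)) * (GG ^ n * (18 * n) * ((36864 ^ 74 * (((AP N i : ℚ) : ℝ) * ((AP N j : ℚ) : ℝ))) *
        ((nu n : ℚ) : ℝ) ^ (74 + (i + j))) * (426 * n) ^ 16) =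
      (16 * 18 * 426 ^ 16 * 36864 ^ 74) * (n : ℝ) ^ 18 * (((nu n : ℚ) : ℝ) ^ 74) *
        (GG ^ n * (((AP N i : ℚ) : ℝ) * ((AP N j : ℚ) : ℝ)) * ((nu n : ℚ) : ℝ) ^ (i + j)) := by
    rw [pow_add]
    ring
  rw [e1]
  calc _ ≤ (16 * 18 * 426 ^ 16 * 36864 ^ 74) * (n : ℝ) ^ 18 * ((n : ℝ) ^ 148) *
        ((GG * Real.exp (24 * (25087 / 100) * Real.log 2 * N)) *
          ((36864 ^ 132 * Real.exp (Real.log 2 / 4 * (EX N i + 4452 * N))) *
            (36864 ^ 132 * Real.exp (Real.log 2 / 4 * (EX N j + 4452 * N)))) *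
          (Real.exp (2 * ((i : ℝ) + j) * Real.log N) * Real.exp 132)) := by
        gcongr
    _ = _ := by
        have e2 : Real.exp (824688 / 100 * Real.log 2 * N + Real.log 2 / 4 * ((EX N i : ℝ) + EX N j) +
          2 * ((i : ℝ) + j) * Real.log N) = Real.exp (24 * (25087 / 100) * Real.log 2 * N) *
          Real.exp (Real.log 2 / 4 * (EX N i + 4452 * N)) * Real.exp (Real.log 2 / 4 * (EX N j + 4452 * N)) *
          Real.exp (2 * ((i : ℝ) + j) * Real.log N) := by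
          rw [← Real.exp_add, ← Real.exp_add, ← Real.exp_add]
          congr 1
          ring
        rw [e2]
        unfold cR
        ring

/-- the exponent of the bound of the entries -/
def EE2 (N i j : ℕ) : ℝ :=
  (2 * (Lam * N) + 8 * (i + j) * Real.log N + ((EX N i : ℝ) + EX N j - 100000 * N) * Real.log 2) / 4

/-- the comparison of the exponents -/
lemma exps {N i j : ℕ} : 824688 / 100 * Real.log 2 * N + Real.log 2 / 4 * ((EX N i : ℝ) + EX N j) +
    2 * ((i : ℝ) + j) * Real.log N - 7770 * N ≤ EE2 N i j := by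
  have h2 := Real.log_two_lt_d9
  have h2' := Real.log_two_gt_d9
  have h3 := log_three
  have h5 : 339 * Real.log 2 ≤ 146 * Real.log 5 := by
    have h1 : Real.log (((2 : ℝ) ^ 113) ^ 3) ≤ Real.log ((5 : ℝ) ^ 146) := by
      apply Real.log_le_log (by positivity)
      norm_num
    rw [Real.log_pow, Real.log_pow, Real.log_pow] at h1
    push_cast at h1
    linarith
  have e1 : Real.log 240 = 4 * Real.log 2 + Real.log 3 + Real.log 5 := by
    rw [show (240 : ℝ) = 2 ^ 4 * 3 * 5 by norm_num, Real.log_mul (by norm_num) (by norm_num),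
      Real.log_mul (by norm_num) (by norm_num), Real.log_pow]
    push_cast; ring
  have e2 : Real.log 48 = 4 * Real.log 2 + Real.log 3 := by
    rw [show (48 : ℝ) = 2 ^ 4 * 3 by norm_num, Real.log_mul (by norm_num) (by norm_num), Real.log_pow]
    push_cast; ring
  have hN : (0 : ℝ) ≤ N := by positivity
  have key : (824688 / 100 + 25000) * Real.log 2 - Lam / 2 ≤ 7770 := by
    unfold Lam
    rw [e1, e2]
    clear e1 e2
    linarith
  have key2 : ((824688 / 100 + 25000) * Real.log 2 - Lam / 2) * N ≤ 7770 * N := mul_le_mul_of_nonneg_right key hN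
  unfold EE2
  linarith

lemma poly_small' (c C : ℝ) (K : ℕ) (hc0 : 0 ≤ c) (hC : 0 < C) : ∀ᶠ N : ℕ in atTop,
    c * ((24 * N + 1 : ℕ) : ℝ) ^ 166 ≤ C * ((24 * N + 1 : ℕ) : ℝ) ^ K * Real.exp N := by
  have h1 : Tendsto (fun N : ℕ => ((N : ℝ)) ^ 166 * Real.exp (-(N : ℝ))) atTop (𝓝 0) :=
    (Real.tendsto_pow_mul_exp_neg_atTop_nhds_zero 166).comp tendsto_natCast_atTop_atTop
  have h2 : Tendsto (fun N : ℕ => (c * 25 ^ 166) * ((N : ℝ) ^ 166 * Real.exp (-(N : ℝ)))) atTop (𝓝 ((c * 25 ^ 166) * 0)) :=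
    h1.const_mul _
  rw [mul_zero] at h2
  filter_upwards [h2.eventually (gt_mem_nhds hC), eventually_ge_atTop 1] with N h3 hN
  have hN1 : (1 : ℝ) ≤ N := by exact_mod_cast hN
  have e0 : ((24 * N + 1 : ℕ) : ℝ) ≤ 25 * N := by push_cast; linarith
  have e1 : ((24 * N + 1 : ℕ) : ℝ) ^ 166 ≤ 25 ^ 166 * (N : ℝ) ^ 166 := by
    rw [← mul_pow]
    exact pow_le_pow_left₀ (by positivity) e0 166
  have e2 : (1 : ℝ) ≤ ((24 * N + 1 : ℕ) : ℝ) ^ K := by
    apply one_le_pow₀
    push_cast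
    linarith
  calc c * ((24 * N + 1 : ℕ) : ℝ) ^ 166 ≤ c * (25 ^ 166 * (N : ℝ) ^ 166) := mul_le_mul_of_nonneg_left e1 hc0
    _ = ((c * 25 ^ 166) * ((N : ℝ) ^ 166 * Real.exp (-(N : ℝ)))) * Real.exp N := by
        have : Real.exp (-(N : ℝ)) * Real.exp N = 1 := by rw [← Real.exp_add]; simp
        calc _ = (c * 25 ^ 166) * (N : ℝ) ^ 166 * 1 := by ring
          _ = _ := by rw [← this]; ring
    _ ≤ C * Real.exp N := mul_le_mul_of_nonneg_right h3.le (Real.exp_pos _).le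
    _ ≤ C * ((24 * N + 1 : ℕ) : ℝ) ^ K * Real.exp N := by
        calc C * Real.exp N = C * 1 * Real.exp N := by rw [mul_one]
          _ ≤ _ := by
              apply mul_le_mul_of_nonneg_right _ (Real.exp_pos _).le
              exact mul_le_mul_of_nonneg_left e2 hC.le

/-- bounds of the series of the entries -/
theorem entry : ∃ (C : ℝ) (K : ℕ), 0 < C ∧ ∀ N : ℕ, 1 ≤ N → ∀ n : ℕ, n = 24 * N + 1 →
    ∀ i < 792 * N, ∀ j < 792 * N, ∀ F : ℝ,
    HasSum (fun t : ℕ => ((PowerSeries.coeff 6 (RS (sN n) (muN n) (PPn n * EE n (PN N i * PN N j)) (t : ℚ)) : ℚ) : ℝ)) F →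
    |F| ≤ C * (n : ℝ) ^ K * Real.exp (EE2 N i j) := by
  obtain ⟨Cv, hCv, hCK⟩ := V1_rot (b := 7) (by norm_num)
  obtain ⟨CC, K, hCC, hind⟩ := index G1_0 (fun hN c a b ha hb ρ hρ => G2_qa hN c a b ha hb ρ hρ)
      (G4eAux.pow_eq_exp 50000) G3_A
  have hCC0 : 0 < CC := by linarith
  refine ⟨Cv * CC, K, by positivity, ?_⟩
  intro N hN n hn i hi j hj F hF
  have hn1 : (1 : ℝ) ≤ n := by
    have : 1 ≤ n := by omega
    exact_mod_cast this
  obtain ⟨Ri, mi, hmi, hPi, hbi⟩ := hind N hN n hn i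
  obtain ⟨Rj, mj, hmj, hPj, hbj⟩ := hind N hN n hn j
  have hexp : EE2 N i j = (ax N i + ax N j) / 4 := by
    unfold EE2 ax; ring
  have hdeg : (PN N i * PN N j).natDegree ≤ 66 * n - 68 := by
    have h1 := Polynomial.natDegree_mul_le (p := PN N i) (q := PN N j)
    rw [(G4_monic hN i hi).2, (G4_monic hN j hj).2] at h1
    omega
  rw [hexp, mul_assoc Cv CC, mul_assoc Cv]
  have hdeg2 := V2_deg (by omega) (PN N i * PN N j) hdeg
  refine hCK (sN n) (muN n) (PPn n * EE n (PN N i * PN N j)) hdeg2 (by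
    intro k hk
    have hk' : k ∈ Finset.Icc (2 * n + 1) (16 * n - 2 * n - 1) := hk
    rw [Finset.mem_Icc] at hk'
    omega) F hF _ ?_
  intro r hr
  rw [contour_eq]
  have hx := one_le_xv (n := n) (U := 0) (by omega : 1 ≤ n) hr
  have hr1 : 0 < 1 + r ^ 2 := by positivity
  rw [← div_eq_mul_inv, le_div_iff₀ hr1, map_mul, norm_mul, hPi, hPj, map_mul, map_mul, map_pow,
    map_pow, aeval_X, norm_mul, norm_mul, norm_pow, norm_pow]
  have hbi' := hbi r hr
  have hbj' := hbj r hr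
  set x : ℝ := ‖xv n (zv 0 r)‖ with hxd
  set a : ℝ := ‖aeval (xv n (zv 0 r)) Ri‖ with had
  set b : ℝ := ‖aeval (xv n (zv 0 r)) Rj‖ with hbd
  have ha : 0 ≤ a := norm_nonneg _
  have hb : 0 ≤ b := norm_nonneg _
  have hx0 : 0 ≤ x := norm_nonneg _
  set f0 : ℝ := ‖Rv n (zv 0 r)‖ * Real.exp (-(2 * Real.pi * r)) * (1 + r ^ 2) with hf0
  have hf00 : 0 ≤ f0 := by rw [hf0]; positivity
  have hfw : fw n 0 r = f0 * x ^ 400 := by
    rw [hf0, hxd]; unfold fw; ring
  have hL : ‖Rv n (zv 0 r)‖ * x ^ 74 * (a * x ^ mi * (b * x ^ mj)) *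
      Real.exp (-(2 * Real.pi * r)) * (1 + r ^ 2) ≤ f0 * x ^ 400 * a * b := by
    have h1 : x ^ (74 + mi + mj) ≤ x ^ 400 := pow_le_pow_right₀ hx (by omega)
    calc _ = f0 * x ^ (74 + mi + mj) * a * b := by
          rw [hf0, pow_add, pow_add]; ring
      _ ≤ _ := by
          apply mul_le_mul_of_nonneg_right _ hb
          apply mul_le_mul_of_nonneg_right _ ha
          exact mul_le_mul_of_nonneg_left h1 hf00
  refine hL.trans ?_
  have hnK : (1 : ℝ) ≤ (n : ℝ) ^ K := one_le_pow₀ hn1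
  have hCn : 1 ≤ CC * (n : ℝ) ^ K := by nlinarith
  have h4 : (f0 * x ^ 400 * a * b) ^ 4 ≤
      (CC * (n : ℝ) ^ K * Real.exp ((ax N i + ax N j) / 4)) ^ 4 := by
    rw [hfw] at hbi' hbj'
    calc (f0 * x ^ 400 * a * b) ^ 4 = (f0 * x ^ 400 * a ^ 2) ^ 2 * (f0 * x ^ 400 * b ^ 2) ^ 2 := by
          ring
      _ ≤ (CC * (n : ℝ) ^ K * Real.exp (ax N i)) * (CC * (n : ℝ) ^ K * Real.exp (ax N j)) :=
          mul_le_mul hbi' hbj' (by positivity) (by positivity)
      _ = (CC * (n : ℝ) ^ K) ^ 2 * Real.exp (ax N i + ax N j) := by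
          rw [Real.exp_add]; ring
      _ ≤ (CC * (n : ℝ) ^ K) ^ 4 * Real.exp (ax N i + ax N j) := by
          apply mul_le_mul_of_nonneg_right _ (Real.exp_pos _).le
          exact pow_le_pow_right₀ hCn (by norm_num)
      _ = _ := by
          have : Real.exp (ax N i + ax N j) = Real.exp ((ax N i + ax N j) / 4) ^ 4 := by
            rw [← Real.exp_nat_mul]; congr 1; push_cast; ring
          rw [this]; ring
  exact le_of_pow_le_pow_left₀ (four_ne_zero : (4:ℕ) ≠ 0) (by positivity) h4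

/-- the closeness -/
def Cl (n : ℕ) (u : ℕ → ℚ) : Prop := ∀ l ∈ I7, |zr (l + 6) - (u l : ℝ)| ≤ Real.exp (-(32380 / 100 * n))

/-- the entries at rational points close to the zeta values -/
theorem entry_pert' : ∃ (C : ℝ) (K : ℕ), 0 < C ∧ ∀ᶠ N : ℕ in atTop, ∀ n : ℕ, n = 24 * N + 1 → ∀ u : ℕ → ℚ,
    Cl n u →
    ∀ i < 792 * N, ∀ j < 792 * N, |((NL n u (PN N i * PN N j) : ℚ) : ℝ)| ≤ C * (n : ℝ) ^ K *
      Real.exp ((2 * (Lam * N) + 8 * (i + j) * Real.log N + ((EX N i : ℝ) + EX N j - 100000 * N) * Real.log 2) / 4) := by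
  obtain ⟨C, K, hC, hE⟩ := entry
  refine ⟨2 * C, K, by positivity, ?_⟩
  have hcR := cR_pos
  filter_upwards [poly_small' (7 * 38760 * cR) C K (by positivity) hC, eventually_ge_atTop 4000] with N hpoly hN n hn u hu i hi j hj
  have hN1 : (4000 : ℝ) ≤ N := by exact_mod_cast hN
  have hnr : (n : ℝ) = 24 * N + 1 := by rw [hn]; push_cast; ring
  have hdeg : (PN N i * PN N j).natDegree ≤ 66 * n - 68 := by
    have h1 := Polynomial.natDegree_mul_le (p := PN N i) (q := PN N j)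
    rw [(G4_monic (by omega) i hi).2, (G4_monic (by omega) j hj).2] at h1
    omega
  have hF := gen_hasSum (by omega : 2 ≤ n) u (PN N i * PN N j) hdeg
  set S : ℝ := ∑ l ∈ I7, ((Nat.choose (l + 5) 6 : ℕ) : ℝ) *
        (((rho n (PN N i * PN N j) l : ℚ) : ℝ) * (zr (l + 6) - (u l : ℝ))) with hS
  have h1 := hE N (by omega) n hn i hi j hj _ hF
  set W : ℝ := Real.exp (824688 / 100 * Real.log 2 * N + Real.log 2 / 4 * ((EX N i : ℝ) + EX N j) +
        2 * ((i : ℝ) + j) * Real.log N) with hW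
  set A : ℝ := cR * (n : ℝ) ^ 166 * W with hA
  have hA0 : 0 ≤ A := by rw [hA, hW]; positivity
  set η : ℝ := Real.exp (-(32380 / 100 * (n : ℝ))) with hη
  have h2 : |S| ≤ 7 * 38760 * (A * η) := by
    rw [hS]
    refine (Finset.abs_sum_le_sum_abs _ _).trans ?_
    have h3 : ∀ l ∈ I7, |((Nat.choose (l + 5) 6 : ℕ) : ℝ) *
        (((rho n (PN N i * PN N j) l : ℚ) : ℝ) * (zr (l + 6) - (u l : ℝ)))| ≤ 38760 * (A * η) := by
      intro l hl
      have hl1 : 1 ≤ l ∧ l ≤ 15 := by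
        simp only [I7, Finset.mem_insert, Finset.mem_singleton] at hl
        omega
      rw [abs_mul, abs_mul]
      have hch : |((Nat.choose (l + 5) 6 : ℕ) : ℝ)| ≤ 38760 := by
        rw [Nat.abs_cast]
        have : Nat.choose (l + 5) 6 ≤ Nat.choose 20 6 := Nat.choose_le_choose 6 (by omega)
        have h20 : Nat.choose 20 6 = 38760 := by decide
        rw [h20] at this
        exact_mod_cast this
      exact mul_le_mul hch (mul_le_mul (rho_real' hN hn hi hj l) (hu l hl) (abs_nonneg _) hA0)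
        (by positivity) (by norm_num)
    refine (Finset.sum_le_sum h3).trans ?_
    rw [Finset.sum_const]
    have hc : I7.card = 7 := by decide
    rw [hc, nsmul_eq_mul]
    push_cast
    linarith
  have h3 : 7 * 38760 * (A * η) ≤ C * (n : ℝ) ^ K * Real.exp (EE2 N i j) := by
    have e1 : 7 * 38760 * (A * η) = (7 * 38760 * cR * (n : ℝ) ^ 166) * (W * η) := by
      rw [hA]
      ring
    rw [e1]
    have h4 : W * η ≤ Real.exp (-(N : ℝ)) * Real.exp (EE2 N i j) := by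
      rw [hW, hη, ← Real.exp_add, ← Real.exp_add, Real.exp_le_exp]
      have := exps (N := N) (i := i) (j := j)
      rw [hnr]
      linarith
    have h5 : 7 * 38760 * cR * (n : ℝ) ^ 166 ≤ C * (n : ℝ) ^ K * Real.exp N := by
      rw [hn]
      exact hpoly
    have hc0 : 0 ≤ 7 * 38760 * cR * (n : ℝ) ^ 166 := by positivity
    have hW0 : 0 ≤ W * η := by rw [hW, hη]; positivity
    calc _ ≤ (C * (n : ℝ) ^ K * Real.exp N) * (Real.exp (-(N : ℝ)) * Real.exp (EE2 N i j)) := by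
          gcongr
      _ = _ := by
          have : Real.exp (N : ℝ) * Real.exp (-(N : ℝ)) = 1 := by rw [← Real.exp_add]; simp
          calc _ = C * (n : ℝ) ^ K * (Real.exp (N : ℝ) * Real.exp (-(N : ℝ))) * Real.exp (EE2 N i j) := by ring
            _ = _ := by rw [this, mul_one]
  have h5 : Real.exp (EE2 N i j) = Real.exp ((2 * (Lam * N) + 8 * (i + j) * Real.log N + ((EX N i : ℝ) + EX N j - 100000 * N) * Real.log 2) / 4) := rfl
  rw [← h5]
  have h6 : |((NL n u (PN N i * PN N j) : ℚ) : ℝ)| ≤ |((NL n u (PN N i * PN N j) : ℚ) : ℝ) + S| + |S| := by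
    have := abs_sub (((NL n u (PN N i * PN N j) : ℚ) : ℝ) + S) S
    rw [add_sub_cancel_right] at this
    exact this
  linarith

end

end Pool.Agent.Q203.YS
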