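import Pool.Agent.Q203.SM.Base
import Pool.Agent.TH900.YM.Rho
import Pool.Agent.H343Y.G4m

/-!
# Sharper exponential bounds for the coefficients of the linear forms in `1, ζ(9), ζ(11), …, ζ(21)`

Every factor of the basis polynomials gets its own bound.
-/

open Polynomial Pool.Agent.H337R2 Pool.Agent.H343Y Pool.Agent.TH900.YM Pool.Agent.Q203.SM

namespace Pool.Agent.Q203.YS

noncomputable section

set_option autoImplicit false

lemma SAx {n k : ℕ} {Q : ℚ[X]} {A : ℚ} (h : SA 16 n k Q A) :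
    AB (Q.natDegree : ℚ) (A * nu n ^ Q.natDegree) (TS (-(k : ℚ)) (Q.comp (xp n))) := h.2.2

lemma SA_qa' {n k N : ℕ} (hN : 4000 ≤ N) (hn : n = 24 * N + 1) (hk : k ≤ 16 * n) {a b : ℚ} (ha : 1 / 2 ≤ a)
    (hb : 0 ≤ b) (hb2 : b ≤ 200) (hab : b ^ 2 ≤ a * (a + 384) - 1) : SA 16 n k (qa N a b) (Mab 16 a b) := by
  have e : qa N a b = qaH 16 N a b := by
    unfold qa qaH
    push_cast
    rfl
  have hm := Pool.Agent.H343Y.G4m.qa_monic N a b
  rw [e] at hm ⊢
  refine SA_qa (by norm_num) (by norm_num) hN hn hk ha hb hb2 ?_ hm.1 hm.2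
  push_cast
  linarith

/-- the bound of the stage `s` -/
def A1 (s : ℕ) : ℚ := ∏ k ∈ Finset.range 10, Mab 16 (at1 k).1 (at1 k).2 ^ sg1 s k

lemma SA_C1 {n k N s : ℕ} (hN : 4000 ≤ N) (hn : n = 24 * N + 1) (hk : k ≤ 16 * n) :
    SA 16 n k (Pool.Agent.H343Y.C1 N s) (A1 s) := by
  unfold Pool.Agent.H343Y.C1 A1
  apply SA.prod
  intro κ hκ
  rw [Finset.mem_range] at hκ
  apply SA.pow
  apply SA_qa' hN hn hk
  all_goals interval_cases κ <;> norm_num [at1, la1]

/-- the bound of the basis polynomials, without the powers of `ν` -/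
def AP (N i : ℕ) : ℚ := (∏ s ∈ Finset.range 6, A1 s ^ e1 N i s) * 36864 ^ 132

lemma SA_X' {n k : ℕ} (hn : 1 ≤ n) (hk : k ≤ 16 * n) : SA 16 n k X 36864 := by
  have h := SA_X (h := 16) (n := n) (k := k) (by norm_num) hn hk
  norm_num at h
  exact h

lemma SA_PN {n k N : ℕ} (hN : 4000 ≤ N) (hn : n = 24 * N + 1) (hk : k ≤ 16 * n) (i : ℕ) :
    SA 16 n k (PN N i) (AP N i) := by
  have hX := SA_X' (n := n) (k := k) (by omega) hk
  have hXp : ∀ r, r < 132 → SA 16 n k (X ^ r) (36864 ^ 132) := by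
    intro r hr
    exact (hX.pow r).mono (pow_le_pow_right₀ (by norm_num) (by omega))
  unfold PN AP
  exact (SA.prod _ _ _ fun s _ => (SA_C1 hN hn hk).pow _).mul (hXp _ (by omega))

lemma AP_nonneg (N i : ℕ) : 0 ≤ AP N i := by
  unfold AP A1 Mab
  positivity

/-- the bound of the local expansions of the extra factor -/
lemma AB_EE' {n k N : ℕ} (hN : 4000 ≤ N) (hn : n = 24 * N + 1) (hk : k ≤ 16 * n) {i j : ℕ} (hi : i < 792 * N)
    (hj : j < 792 * N) :
    AB ((74 + (i + j) : ℕ) : ℚ) ((36864 ^ 74 * (AP N i * AP N j)) * nu n ^ (74 + (i + j)))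
      (TS (-(k : ℚ)) (EE n (PN N i * PN N j))) := by
  have hX := SA_X' (n := n) (k := k) (by omega) hk
  have h1 := (hX.pow 74).mul ((SA_PN hN hn hk i).mul (SA_PN hN hn hk j))
  have h2 : (X ^ 74 * (PN N i * PN N j) : ℚ[X]).natDegree = 74 + (i + j) := by
    rw [(hX.pow 74).1.natDegree_mul ((SA_PN hN hn hk i).mul (SA_PN hN hn hk j)).1,
      (SA_PN hN hn hk i).1.natDegree_mul (SA_PN hN hn hk j).1, natDegree_X_pow,
      (G4_monic (by omega) i hi).2, (G4_monic (by omega) j hj).2]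
  have h3 := SAx h1
  rw [h2] at h3
  exact h3

/-- the base of the bound of the zeros -/
def G0 : ℚ := ((4 / 3) ^ 16 * 3 ^ 4) ^ 7

lemma G0_pos : 0 < G0 := by unfold G0; positivity

lemma GW_eq : GW 3 7 16 2 = G0 := by
  unfold GW G0
  norm_num

theorem rho_le' {n N : ℕ} (hN : 4000 ≤ N) (hn : n = 24 * N + 1) {i j : ℕ} (hi : i < 792 * N)
    (hj : j < 792 * N) (l : ℕ) :
    |rho n (PN N i * PN N j) l| ≤
      (16 * n) * ((G0 * 2 ^ 160) ^ n * (18 * n) * ((36864 ^ 74 * (AP N i * AP N j)) * nu n ^ (74 + (i + j))) *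
        (426 * n) ^ 16) := by
  have hn1 : (1 : ℚ) ≤ n := by exact_mod_cast (by omega : 1 ≤ n)
  have hν := nu_nonneg n
  have hG := G0_pos.le
  have hAi := AP_nonneg N i
  have hAj := AP_nonneg N j
  have key : ∀ k ∈ sN n, |pa (sN n) (muN n) (PPn n * EE n (PN N i * PN N j)) k l| ≤
      (G0 * 2 ^ 160) ^ n * (18 * n) * ((36864 ^ 74 * (AP N i * AP N j)) * nu n ^ (74 + (i + j))) *
        (426 * n) ^ 16 := by
    intro k hk
    have hk' := hk
    rw [sN, ss, Finset.mem_Icc] at hk'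
    have h1 := pa_mul_le' 3 (by norm_num) 7 16 2 n ds16 (by omega) (by decide) (by decide) hk
      (EE n (PN N i * PN N j)) ((74 + (i + j) : ℕ) : ℚ) _ (by positivity) (by positivity)
      (AB_EE' hN hn (by omega) hi hj) l
    refine h1.trans ?_
    have hsum : (List.map (fun d => 16 - 2 * d) ds16).sum = 160 := by decide
    have hlen : ds16.length = 16 := rfl
    rw [hsum, hlen, GW_eq]
    have h2 : ((∑ m ∈ sN n, muN n m : ℕ) : ℚ) ≤ 256 * n := by
      have h3 : ∑ m ∈ ss 16 2 n, mu 16 n ds16 m ≤ (16 * n) * 16 := by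
        calc _ ≤ ∑ m ∈ ss 16 2 n, 16 := Finset.sum_le_sum fun k _ => mu_le_length 16 n ds16 k
          _ = (ss 16 2 n).card * 16 := by rw [Finset.sum_const, smul_eq_mul]
          _ ≤ (16 * n) * 16 := by
              apply Nat.mul_le_mul_right
              unfold ss
              rw [Nat.card_Icc]
              omega
      have h4 : ((∑ m ∈ ss 16 2 n, mu 16 n ds16 m : ℕ) : ℚ) ≤ ((16 * n * 16 : ℕ) : ℚ) := by exact_mod_cast h3
      push_cast at h4 ⊢
      linarith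
    have h3 : ((74 + (i + j) : ℕ) : ℚ) ≤ 74 + 66 * n := by
      have : 74 + (i + j) ≤ 74 + 66 * n := by omega
      have h4 : ((74 + (i + j) : ℕ) : ℚ) ≤ ((74 + 66 * n : ℕ) : ℚ) := by exact_mod_cast this
      push_cast at h4 ⊢
      exact h4
    have h4 : (1 + 2 * ((7 : ℕ) : ℚ) * (((2 : ℕ) : ℚ) * (n : ℚ)) + ((∑ m ∈ sN n, muN n m : ℕ) : ℚ) +
        ((74 + (i + j) : ℕ) : ℚ)) ≤ 426 * n := by
      norm_num at h2 h3 ⊢
      linarith
    have h5 : (((16 : ℕ) : ℚ) * n + 2) ≤ 18 * n := by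
      push_cast
      linarith
    have h6 : 0 ≤ (1 + 2 * ((7 : ℕ) : ℚ) * (((2 : ℕ) : ℚ) * (n : ℚ)) + ((∑ m ∈ sN n, muN n m : ℕ) : ℚ) +
        ((74 + (i + j) : ℕ) : ℚ)) := by positivity
    have h7 : ((∑ m ∈ ss 16 2 n, mu 16 n ds16 m : ℕ) : ℚ) = ((∑ m ∈ sN n, muN n m : ℕ) : ℚ) := rfl
    rw [h7]
    gcongr
  unfold rho
  calc _ ≤ ∑ k ∈ sN n, |pa (sN n) (muN n) (PPn n * EE n (PN N i * PN N j)) k l| := Finset.abs_sum_le_sum_abs _ _
    _ ≤ ∑ k ∈ sN n, (G0 * 2 ^ 160) ^ n * (18 * n) * ((36864 ^ 74 * (AP N i * AP N j)) * nu n ^ (74 + (i + j))) *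
        (426 * n) ^ 16 := Finset.sum_le_sum key
    _ = ((sN n).card : ℚ) * ((G0 * 2 ^ 160) ^ n * (18 * n) *
        ((36864 ^ 74 * (AP N i * AP N j)) * nu n ^ (74 + (i + j))) * (426 * n) ^ 16) := by
        rw [Finset.sum_const, nsmul_eq_mul]
    _ ≤ _ := by
        apply mul_le_mul_of_nonneg_right _ (by positivity)
        have h4 : (sN n).card ≤ 16 * n := by
          unfold sN ss
          rw [Nat.card_Icc]
          omega
        have h5 : ((sN n).card : ℚ) ≤ ((16 * n : ℕ) : ℚ) := by exact_mod_cast h4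
        push_cast at h5
        exact h5

end

end Pool.Agent.Q203.YS
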